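import Pool.Agent.Work.MP_2c2d16_pr.Final
import Pool.Agent.Work.MP_2c2d16_pr.Link
import Pool.Agent.Work.MP_2c2d16_pr.Thinning
import Pool.Agent.Work.MP_2c2d16_pr.Cleaning
import Pool.Agent.Work.MP_2c2d16_pr.GoodPoly
import Pool.Agent.Work.MP_2c2d16_pr.Amp
import Pool.Agent.Work.MP_2c2d16_pr.SE.Bridge

/-!
The Lovasz number of the uniformly random circulant graph on n vertices is (1 + o(1)) times the
square root of n, in expectation and in mean.  All definitions are written from the
problem file; the estimates come from the modules used for the frozen statement S19235.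
-/

set_option autoImplicit false

namespace Pool.Agent.Results.MP_2c2d16_pr.CirculantTheta

open Finset Filter Topology
open Pool.Agent.Th2c (cls cl EB bad theta thetaSet Good)

/-! ### Definitions -/

/-- `X` is feasible for the semidefinite program of the graph `G`: it is (symmetric) positive
semidefinite, it has trace one, and it vanishes at every edge. -/
def Feasible {V : Type} [Fintype V] (G : SimpleGraph V) (X : Matrix V V ℝ) : Prop :=
  X.PosSemidef ∧ X.trace = 1 ∧ ∀ i j : V, G.Adj i j → X i j = 0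

/-- the values taken by the sum of all entries on feasible matrices -/
def values {V : Type} [Fintype V] (G : SimpleGraph V) : Set ℝ :=
  {r | ∃ X : Matrix V V ℝ, Feasible G X ∧ r = ∑ i, ∑ j, X i j}

/-- the Lovasz number of `G`, the supremum of `values G` (a maximum, see the theorem) -/
noncomputable def lovasz {V : Type} [Fintype V] (G : SimpleGraph V) : ℝ := sSup (values G)

/-- `m = ⌈(n - 1) / 2⌉` -/
noncomputable def half (n : ℕ) : ℕ := ⌈((n : ℝ) - 1) / 2⌉₊

/-- the sample space `{0,1}^m`, with coordinates numbered `1, ..., m` -/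
abbrev Cube (n : ℕ) : Type := (Finset.Icc 1 (half n) : Finset ℕ) → Fin 2

/-- `d = (i - j) mod n`, one of the numbers `0, ..., n - 1` -/
def dmod {n : ℕ} (i j : Fin n) : ℕ := (((i : ℕ) : ℤ) - ((j : ℕ) : ℤ)).emod (n : ℤ) |>.toNat

lemma half_eq (n : ℕ) : half n = n / 2 := by
  unfold half
  rcases Nat.eq_zero_or_pos n with rfl | hn
  · simp
    norm_num
  rcases Nat.even_or_odd' n with ⟨k, rfl | rfl⟩
  · have hk : 1 ≤ k := by omega
    rw [Nat.ceil_eq_iff (by omega)]
    rw [show 2 * k / 2 = k by omega]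
    push_cast [Nat.cast_sub hk]
    constructor <;> linarith
  · rw [show (2 * k + 1) / 2 = k by omega]
    have : (((2 * k + 1 : ℕ) : ℝ) - 1) / 2 = (k : ℝ) := by push_cast; ring
    rw [this, Nat.ceil_natCast]

lemma dmod_spec {n : ℕ} (i j : Fin n) :
    (j ≤ i → dmod i j = i - j) ∧ (i < j → dmod i j = n - (j - i)) := by
  unfold dmod
  have hi := i.2
  have hj := j.2
  constructor
  · intro h
    have h' : (j : ℕ) ≤ i := h
    have h2 : (((i : ℕ) : ℤ) - ((j : ℕ) : ℤ)).emod (n : ℤ) = (((i : ℕ) - (j : ℕ) : ℕ) : ℤ) := by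
      rw [Nat.cast_sub h']
      exact Int.emod_eq_of_lt (by omega) (by omega)
    rw [h2, Int.toNat_natCast]
  · intro h
    have h' : (i : ℕ) < j := h
    have h2 : (((i : ℕ) : ℤ) - ((j : ℕ) : ℤ)).emod (n : ℤ) = ((n - ((j : ℕ) - (i : ℕ)) : ℕ) : ℤ) := by
      have h3 : (((i : ℕ) : ℤ) - ((j : ℕ) : ℤ)).emod (n : ℤ) =
          (((i : ℕ) : ℤ) - ((j : ℕ) : ℤ) + n).emod (n : ℤ) := (Int.add_emod_right _ _).symm
      rw [h3]
      have h4 : (((i : ℕ) : ℤ) - ((j : ℕ) : ℤ) + n) = ((n - ((j : ℕ) - (i : ℕ)) : ℕ) : ℤ) := by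
        omega
      rw [h4]
      exact Int.emod_eq_of_lt (by omega) (by omega)
    rw [h2, Int.toNat_natCast]

lemma dmod_swap {n : ℕ} {i j : Fin n} (h : i ≠ j) :
    dmod j i = n - dmod i j ∧ 0 < dmod i j ∧ dmod i j < n := by
  have hi := i.2
  have hj := j.2
  have hne : (i : ℕ) ≠ j := fun hc => h (Fin.ext hc)
  rcases lt_or_ge i j with h1 | h1
  · have a := (dmod_spec i j).2 h1
    have b := (dmod_spec j i).1 h1.le
    have h1' : (i : ℕ) < j := h1
    omega
  · have h2 : j < i := lt_of_le_of_ne h1 (Ne.symm h)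
    have a := (dmod_spec i j).1 h1
    have b := (dmod_spec j i).2 h2
    have h2' : (j : ℕ) < i := h2
    omega

/-- The circulant graph `G_n` on `{0, ..., n-1}` given by the point `x` of `{0,1}^m`: for `i ≠ j`
and `d = (i - j) mod n`, the pair `{i, j}` is an edge if and only if `x_{min(d, n-d)} = 1`.  The
index `min(d, n-d)` always lies in `{1, ..., m}`, see `idx_mem`. -/
def circ (n : ℕ) (x : Cube n) : SimpleGraph (Fin n) where
  Adj i j := i ≠ j ∧ ∃ h : min (dmod i j) (n - dmod i j) ∈ Finset.Icc 1 (half n), x ⟨_, h⟩ = 1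
  symm := ⟨by
    rintro i j ⟨hne, h⟩
    refine ⟨hne.symm, ?_⟩
    obtain ⟨h1, h2, h3⟩ := dmod_swap hne
    have h4 : min (dmod j i) (n - dmod j i) = min (dmod i j) (n - dmod i j) := by omega
    rw [h4]
    exact h⟩
  loopless := ⟨fun _ h => h.1 rfl⟩

/-- the index of the coordinate deciding the pair `{i, j}` lies in `{1, ..., m}` -/
lemma idx_mem {n : ℕ} {i j : Fin n} (h : i ≠ j) :
    min (dmod i j) (n - dmod i j) ∈ Finset.Icc 1 (half n) := by
  obtain ⟨h1, h2, h3⟩ := dmod_swap h
  rw [half_eq, Finset.mem_Icc]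
  omega

/-- expectation of `f` over a uniformly random point of `{0,1}^m` -/
noncomputable def mean (n : ℕ) (f : Cube n → ℝ) : ℝ := (∑ x : Cube n, f x) / 2 ^ half n

/-! ### The maximum is attained -/

lemma sum_quad {V : Type} [Fintype V] (X : Matrix V V ℝ) (v : V → ℝ) :
    star v ⬝ᵥ (X.mulVec v) = ∑ i, ∑ j, X i j * (v i * v j) := by
  simp only [dotProduct, Matrix.mulVec, Pi.star_apply, star_trivial, Finset.mul_sum]
  refine Finset.sum_congr rfl fun i _ => Finset.sum_congr rfl fun j _ => ?_
  ring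

lemma entry_bound {V : Type} [Fintype V] {G : SimpleGraph V} {X : Matrix V V ℝ}
    (h : Feasible G X) (i j : V) : X i j ∈ Set.Icc (-1 : ℝ) 1 := by
  classical
  obtain ⟨hp, ht, _⟩ := h
  have hd : ∀ k, 0 ≤ X k k := fun k => hp.diag_nonneg
  have htr : ∑ k, X k k = 1 := ht
  have hd1 : ∀ k, X k k ≤ 1 := fun k => by
    rw [← htr]
    exact Finset.single_le_sum (f := fun k => X k k) (fun k _ => hd k) (Finset.mem_univ k)
  have hsym : X j i = X i j := by
    have := hp.isHermitian.apply i j
    simpa using this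
  by_cases hij : i = j
  · subst hij
    exact ⟨by linarith [hd i], hd1 i⟩
  have key : ∀ s : ℝ, 0 ≤ X i i + X j j * (s * s) + 2 * (s * X i j) := by
    intro s
    have h1 := hp.dotProduct_mulVec_nonneg (fun k => if k = i then 1 else if k = j then s else 0)
    rw [sum_quad] at h1
    have h2 : ∀ a : V, ∑ b, X a b * ((if a = i then 1 else if a = j then s else 0) *
        (if b = i then 1 else if b = j then s else 0)) =
        (X a i + X a j * s) * (if a = i then 1 else if a = j then s else 0) := by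
      intro a
      have h3 : ∀ b, X a b * ((if a = i then 1 else if a = j then s else 0) *
        (if b = i then 1 else if b = j then s else 0)) =
        (if b = i then X a i * (if a = i then 1 else if a = j then s else 0) else 0) +
        (if b = j then X a j * s * (if a = i then 1 else if a = j then s else 0) else 0) := by
        intro b
        by_cases hb : b = i
        · subst hb
          simp [hij]
        · by_cases hb' : b = j
          · subst hb'
            simp [hb]
            ring_nf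
          · simp [hb, hb']
      rw [Finset.sum_congr rfl fun b _ => h3 b, Finset.sum_add_distrib]
      simp only [Finset.sum_ite_eq', Finset.mem_univ, if_true]
      ring
    rw [Finset.sum_congr rfl fun a _ => h2 a] at h1
    have h4 : ∀ a : V, (X a i + X a j * s) * (if a = i then 1 else if a = j then s else 0) =
        (if a = i then X i i + X i j * s else 0) + (if a = j then (X j i + X j j * s) * s else 0) := by
      intro a
      by_cases ha : a = i
      · subst ha
        simp [hij]
      · by_cases ha' : a = j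
        · subst ha'
          simp [ha]
        · simp [ha, ha']
    rw [Finset.sum_congr rfl fun a _ => h4 a, Finset.sum_add_distrib] at h1
    simp only [Finset.sum_ite_eq', Finset.mem_univ, if_true] at h1
    rw [hsym] at h1
    linarith [h1]
  have h1 := key 1
  have h2 := key (-1)
  have a1 := hd1 i
  have a2 := hd1 j
  constructor <;> linarith

lemma isClosed_feasible {V : Type} [Fintype V] (G : SimpleGraph V) :
    IsClosed {X : Matrix V V ℝ | Feasible G X} := by
  have h1 : IsClosed {X : Matrix V V ℝ | X.PosSemidef} := by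
    have : {X : Matrix V V ℝ | X.PosSemidef} =
        {X : Matrix V V ℝ | X.conjTranspose = X} ∩
        ⋂ v : V → ℝ, {X : Matrix V V ℝ | 0 ≤ star v ⬝ᵥ (X.mulVec v)} := by
      ext X
      rw [Set.mem_inter_iff, Set.mem_iInter]
      exact Matrix.posSemidef_iff_dotProduct_mulVec
    rw [this]
    refine IsClosed.inter ?_ (isClosed_iInter fun v => ?_)
    · exact isClosed_eq (by fun_prop) continuous_id
    · have hcont : Continuous fun X : Matrix V V ℝ => ∑ i, ∑ j, X i j * (v i * v j) := by
        fun_prop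
      exact isClosed_le continuous_const (hcont.congr fun X => (sum_quad X v).symm)
  have h2 : IsClosed {X : Matrix V V ℝ | X.trace = 1} := by
    have hcont : Continuous fun X : Matrix V V ℝ => ∑ i, X i i := by fun_prop
    exact isClosed_eq hcont continuous_const
  have h3 : IsClosed {X : Matrix V V ℝ | ∀ i j : V, G.Adj i j → X i j = 0} := by
    have : {X : Matrix V V ℝ | ∀ i j : V, G.Adj i j → X i j = 0} =
        ⋂ i : V, ⋂ j : V, ⋂ _ : G.Adj i j, {X : Matrix V V ℝ | X i j = 0} := by
      ext X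
      rw [Set.mem_iInter]
      refine ⟨fun h i => ?_, fun h i j hij => ?_⟩
      · rw [Set.mem_iInter]
        intro j
        rw [Set.mem_iInter]
        exact fun hij => h i j hij
      · have h1 := Set.mem_iInter.1 (Set.mem_iInter.1 (h i) j) hij
        exact h1
    rw [this]
    refine isClosed_iInter fun i => isClosed_iInter fun j => isClosed_iInter fun _ => ?_
    exact isClosed_eq (by fun_prop) continuous_const
  exact h1.inter (h2.inter h3)

/-- the Lovasz number is a maximum -/
theorem isGreatest_lovasz {V : Type} [Fintype V] [Nonempty V] (G : SimpleGraph V) :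
    IsGreatest (values G) (lovasz G) := by
  classical
  have hK : IsCompact {X : Matrix V V ℝ | Feasible G X} := by
    have hc : IsCompact (Set.univ.pi fun _ : V => Set.univ.pi fun _ : V => Set.Icc (-1 : ℝ) 1) :=
      isCompact_univ_pi fun _ => isCompact_univ_pi fun _ => isCompact_Icc
    refine hc.of_isClosed_subset (isClosed_feasible G) ?_
    intro X hX i _ j _
    exact entry_bound hX i j
  have hne : ({X : Matrix V V ℝ | Feasible G X}).Nonempty := by
    have hV : (0 : ℝ) < Fintype.card V := Nat.cast_pos.mpr Fintype.card_pos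
    refine ⟨((Fintype.card V : ℝ)⁻¹) • (1 : Matrix V V ℝ), ?_, ?_, ?_⟩
    · exact Matrix.PosSemidef.one.smul (inv_nonneg.mpr hV.le)
    · rw [Matrix.trace_smul, Matrix.trace_one, smul_eq_mul, inv_mul_cancel₀ hV.ne']
    · intro i j hij
      have : i ≠ j := G.ne_of_adj hij
      simp [Matrix.one_apply_ne this]
  obtain ⟨X, hX, hmax⟩ := hK.exists_isMaxOn hne
    (f := fun X : Matrix V V ℝ => ∑ i, ∑ j, X i j) (by fun_prop)
  have hg : IsGreatest (values G) (∑ i, ∑ j, X i j) := by
    refine ⟨⟨X, hX, rfl⟩, ?_⟩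
    rintro r ⟨Y, hY, rfl⟩
    exact hmax hY
  have := hg.csSup_eq
  unfold lovasz
  rw [this]
  exact hg

/-! ### Comparison with the quantity of the frozen statement -/

/-- the set of coordinates equal to one -/
noncomputable def supp {n : ℕ} (x : Cube n) : Finset ℕ :=
  (Finset.univ.filter fun k : (Finset.Icc 1 (half n) : Finset ℕ) => x k = 1).map
    (Function.Embedding.subtype _)

lemma mem_supp {n : ℕ} (x : Cube n) (k : ℕ) :
    k ∈ supp x ↔ ∃ h : k ∈ Finset.Icc 1 (half n), x ⟨k, h⟩ = 1 := by
  unfold supp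
  simp

lemma supp_subset {n : ℕ} (x : Cube n) : supp x ⊆ cl n := by
  intro k hk
  obtain ⟨h, _⟩ := (mem_supp x k).1 hk
  rw [half_eq] at h
  exact h

lemma dmod_eq_cls {N : ℕ} (i j : ZMod (N + 1)) (h : i ≠ j) :
    min (dmod (n := N + 1) i j) (N + 1 - dmod (n := N + 1) i j) = cls (i - j) := by
  have h1 : ∀ a b : ZMod (N + 1), a ≠ b → dmod (n := N + 1) a b = (a - b).val := by
    intro a b hab
    have ha : a.val < N + 1 := ZMod.val_lt a
    have hb : b.val < N + 1 := ZMod.val_lt b
    rcases Nat.lt_or_ge a.val b.val with hlt | hge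
    · have h2 := (dmod_spec (n := N + 1) a b).2 hlt
      have h3 : (b - a).val = b.val - a.val := ZMod.val_sub hlt.le
      have h4 : a - b = -(b - a) := by ring
      have h5 : b - a ≠ 0 := sub_ne_zero.2 (Ne.symm hab)
      have h6 : (a - b).val = N + 1 - (b - a).val := by
        rw [h4, ZMod.neg_val, if_neg h5]
      rw [h2, h6, h3]
      rfl
    · have h2 := (dmod_spec (n := N + 1) a b).1 hge
      have h3 : (a - b).val = a.val - b.val := ZMod.val_sub hge
      rw [h2, h3]
      rfl
  obtain ⟨h2, _, _⟩ := dmod_swap (n := N + 1) (i := i) (j := j) h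
  rw [← h2, h1 i j h, h1 j i (Ne.symm h)]
  unfold cls
  rw [neg_sub]

lemma values_eq (N : ℕ) (x : Cube (N + 1)) :
    values (circ (N + 1) x) = thetaSet (N + 1) (supp x) := by
  ext r
  rw [Pool.Agent.Th2c.mem_thetaSet]
  constructor
  · rintro ⟨X, ⟨h1, h2, h3⟩, h4⟩
    refine ⟨X, h1, h2, ?_, h4⟩
    intro i j hij hc
    refine h3 i j ⟨hij, ?_⟩
    have h5 := dmod_eq_cls i j hij
    rw [← h5, mem_supp] at hc
    exact hc
  · rintro ⟨X, h1, h2, h3, h4⟩
    refine ⟨X, ⟨h1, h2, ?_⟩, h4⟩
    rintro i j ⟨hij, hc⟩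
    refine h3 i j hij ?_
    have h5 := dmod_eq_cls i j hij
    rw [← h5, mem_supp]
    exact hc

lemma lovasz_eq (N : ℕ) (x : Cube (N + 1)) :
    lovasz (circ (N + 1) x) = theta (N + 1) (supp x) := by
  unfold lovasz
  rw [values_eq]
  rfl

lemma mean_eq (n : ℕ) (g : Finset ℕ → ℝ) :
    mean n (fun x => g (supp x)) = EB (cl n) (1 / 2) g := by
  have hc : (cl n).card = half n := by
    rw [half_eq]
    unfold cl
    rw [Nat.card_Icc]
    omega
  rw [Pool.Agent.Th2c.EB_half, hc]
  unfold mean
  congr 1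
  refine Finset.sum_bij' (fun (x : Cube n) _ => supp x)
    (fun (S : Finset ℕ) _ => fun k : (Finset.Icc 1 (half n) : Finset ℕ) =>
      if (k : ℕ) ∈ S then (1 : Fin 2) else 0) ?_ ?_ ?_ ?_ ?_
  · intro x _
    exact Finset.mem_powerset.2 (supp_subset x)
  · intro S _
    exact Finset.mem_univ _
  · intro x _
    funext k
    have h : ∀ a : Fin 2, a = 1 ∨ a = 0 := by decide
    rcases h (x k) with h1 | h1
    · have : (k : ℕ) ∈ supp x := (mem_supp x k).2 ⟨k.2, h1⟩
      simp [this, h1]
    · have : (k : ℕ) ∉ supp x := fun hc => by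
        obtain ⟨_, h2⟩ := (mem_supp x k).1 hc
        rw [h1] at h2
        exact absurd h2 (by decide)
      simp [this, h1]
  · intro S hS
    ext k
    rw [mem_supp]
    have hS' := Finset.mem_powerset.1 hS
    constructor
    · rintro ⟨_, h2⟩
      by_contra hk
      simp [hk] at h2
    · intro hk
      have h1 : k ∈ Finset.Icc 1 (half n) := by
        rw [half_eq]
        exact hS' hk
      exact ⟨h1, by simp [hk]⟩
  · intro x _
    rfl

/-! ### Convergence -/

open Pool.Agent.Th2c in
/-- convergence in mean along n = N + 1 -/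
theorem l1_succ (hamp : Amp) (hth : Thinning) (hcl : Cleaning) (hlow : ThetaLower)
    (hup : ThetaUpper) (hnn : ThetaNonneg) (hle : ThetaLe) :
    Tendsto (fun N : ℕ => EB (cl (N + 1)) (1 / 2)
      (fun S => |theta (N + 1) S / Real.sqrt (N + 1 : ℕ) - 1|)) atTop (𝓝 0) := by
  have hlim := limit_succ hamp hth hcl hlow hup hnn hle
  rw [Metric.tendsto_atTop] at hlim ⊢
  intro δ hδ
  obtain ⟨N₁, hN₁⟩ := hlim (δ / 2) (by positivity)
  set ε : ℝ := min (δ / 16) (1 / 2) with hεdef
  have hε : 0 < ε := lt_min (by positivity) (by norm_num)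
  have hε1 : ε ≤ 1 / 2 := min_le_right _ _
  have hε2 : ε ≤ δ / 16 := min_le_left _ _
  obtain ⟨N₀, hN₀⟩ := good_whp hamp hth hcl ε hε hε1
  refine ⟨max N₀ N₁, fun N hN => ?_⟩
  have hN0 : N₀ ≤ N := (le_max_left _ _).trans hN
  have hN1 : N₁ ≤ N := (le_max_right _ _).trans hN
  have hg := hN₀ N hN0
  have hl := hN₁ N hN1
  rw [Real.dist_eq] at hl ⊢
  have hn : (0 : ℝ) < ((N + 1 : ℕ) : ℝ) := by positivity
  have hsq : 0 < Real.sqrt ((N + 1 : ℕ) : ℝ) := Real.sqrt_pos.mpr hn
  have hc := EB_compl (cl (N + 1)) (1 / 2) (fun T => bad (Good ε N T))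
  have hhalf : (1 - (1 / 2 : ℝ)) = 1 / 2 := by norm_num
  rw [hhalf] at hc
  rw [← hc] at hg
  have hpt : ∀ S, S ⊆ cl (N + 1) → |theta (N + 1) S / Real.sqrt (N + 1 : ℕ) - 1| ≤
      (theta (N + 1) S / Real.sqrt (N + 1 : ℕ) - 1) +
        (2 * ε + 2 * bad (Good ε N (cl (N + 1) \ S))) := by
    intro S _
    have h0 : 0 ≤ theta (N + 1) S / Real.sqrt (N + 1 : ℕ) := div_nonneg (hnn N S) hsq.le
    have hb := bad_nonneg (Good ε N (cl (N + 1) \ S))
    by_cases hG : Good ε N (cl (N + 1) \ S)
    · have h1 : 1 - ε ≤ theta (N + 1) S / Real.sqrt (N + 1 : ℕ) := by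
        rw [le_div_iff₀ hsq]
        obtain ⟨f, hfe, hfs, hfp, hf0, hfv⟩ := hG
        have h := hlow N S f hfe (fun x hx hxS => hfs x hx (fun hmem => by
          rw [Finset.mem_sdiff] at hmem; exact hmem.2 hxS)) hfp hf0
        refine le_trans ?_ h
        rw [le_div_iff₀ hf0]
        exact hfv
      rw [abs_le]
      constructor <;> linarith
    · rw [bad_of_not hG]
      rw [abs_le]
      constructor <;> linarith
  have h1 := EB_mono (I := cl (N + 1)) (p := 1 / 2) (by norm_num) (by norm_num) hpt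
  rw [EB_add, EB_add, EB_const, EB_sub, EB_const, EB_mul_left] at h1
  have h2 : 0 ≤ EB (cl (N + 1)) (1 / 2)
      (fun S => |theta (N + 1) S / Real.sqrt (N + 1 : ℕ) - 1|) :=
    EB_nonneg (by norm_num) (by norm_num) fun S _ => abs_nonneg _
  rw [sub_zero, abs_of_nonneg h2]
  have h3 := (abs_lt.1 hl).2
  linarith

theorem amp : Pool.Agent.Th2c.Amp := Pool.Agent.Th2c.amp_of Pool.Agent.Th2c.state_evolution

theorem thin : Pool.Agent.Th2c.Thinning := fun N f hf T R β e κ δ h1 h2 h3 h4 h5 h6 h7 =>
  Pool.Agent.Th2c.thinning (N + 1) f hf T R β e κ δ h1 h2 h3 h4 h5 h6 h7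

theorem clean : Pool.Agent.Th2c.Cleaning := fun N D hD l η κ h1 h2 h3 h4 h5 =>
  Pool.Agent.Th2c.cleaning (N + 1) D hD l η κ h1 h2 h3 h4 h5

/-- convergence in mean -/
theorem mean_abs : Tendsto (fun n : ℕ =>
    mean n (fun x => |lovasz (circ n x) / Real.sqrt n - 1|)) atTop (𝓝 0) := by
  rw [← tendsto_add_atTop_iff_nat 1]
  refine (l1_succ amp thin clean Pool.Agent.Th2c.theta_lower Pool.Agent.Th2c.theta_upper
    Pool.Agent.Th2c.theta_nonneg Pool.Agent.Th2c.theta_le).congr (fun N => ?_)
  rw [← mean_eq]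
  simp only [lovasz_eq]

/-- convergence of the expectation -/
theorem mean_ratio : Tendsto (fun n : ℕ =>
    mean n (fun x => lovasz (circ n x)) / Real.sqrt n) atTop (𝓝 1) := by
  rw [← tendsto_add_atTop_iff_nat 1]
  refine (Pool.Agent.Th2c.limit_succ amp thin clean Pool.Agent.Th2c.theta_lower
    Pool.Agent.Th2c.theta_upper Pool.Agent.Th2c.theta_nonneg
    Pool.Agent.Th2c.theta_le).congr (fun N => ?_)
  rw [← mean_eq]
  simp only [lovasz_eq]
  unfold mean
  rw [← Finset.sum_div, div_right_comm]

/-- **The Lovasz number of a random circulant graph.**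

Let `G_n` be the random circulant graph on `n` vertices given by a uniformly random point `x` of
`{0,1}^m`, `m = ⌈(n-1)/2⌉`.  Then `lovasz G_n` is a maximum (for every `n ≥ 1` and every `x`), the
expectation of `|lovasz G_n / sqrt n - 1|` tends to zero, and in particular the expectation of
`lovasz G_n` is `(1 + o(1))` times the square root of `n`: the ratio of the two tends to one, and
for every `ε > 0` their distance is less than `ε` times the square root for all large `n`. -/
theorem result :
    (∀ n : ℕ, 1 ≤ n → ∀ x : Cube n, IsGreatest (values (circ n x)) (lovasz (circ n x))) ∧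
    Tendsto (fun n : ℕ => mean n (fun x => |lovasz (circ n x) / Real.sqrt n - 1|)) atTop (𝓝 0) ∧
    Tendsto (fun n : ℕ => mean n (fun x => lovasz (circ n x)) / Real.sqrt n) atTop (𝓝 1) ∧
    (∀ ε : ℝ, 0 < ε → ∃ N : ℕ, ∀ n : ℕ, N ≤ n →
      |mean n (fun x => lovasz (circ n x)) - Real.sqrt n| < ε * Real.sqrt n) := by
  have hsq : ∀ n : ℕ, 1 ≤ n → 0 < Real.sqrt (n : ℝ) := fun n hn =>
    Real.sqrt_pos.mpr (Nat.cast_pos.mpr hn)
  refine ⟨?_, mean_abs, mean_ratio, ?_⟩
  · intro n hn x
    have : Nonempty (Fin n) := ⟨⟨0, hn⟩⟩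
    exact isGreatest_lovasz _
  · intro ε hε
    obtain ⟨N, hN⟩ := (Metric.tendsto_atTop.1 mean_ratio) ε hε
    refine ⟨max N 1, fun n hn => ?_⟩
    have h1 := hN n ((le_max_left _ _).trans hn)
    have h2 := hsq n ((le_max_right _ _).trans hn)
    rw [Real.dist_eq] at h1
    have h3 : mean n (fun x => lovasz (circ n x)) - Real.sqrt n =
        (mean n (fun x => lovasz (circ n x)) / Real.sqrt n - 1) * Real.sqrt n := by
      field_simp
    rw [h3, abs_mul, abs_of_pos h2]
    exact mul_lt_mul_of_pos_right h1 h2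

end Pool.Agent.Results.MP_2c2d16_pr.CirculantTheta
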